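import Pool.Agent.J4.H70.CM2.Defs
import Pool.Agent.TH216.ID.Cr3
import Pool.Agent.TH216.MF.HDM

/-!
# The criterion in terms of the cones of the normal fan
-/

set_option autoImplicit false
set_option maxHeartbeats 400000

namespace Pool.Agent.J4.H70.CM2

open Pool.Agent.W426.SM (gord face)
open Pool.Agent.W803.SM (gord_le exists_gord)
open Pool.Agent.TH216.MF Pool.Agent.TH216.ID
open Pool.Agent.TH216.HD (IsRay ordA OnFace lev)
open Pool.Agent.TH216.HDL (SimpL B1L)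

variable {r N : ℕ}

/-- the integral vector of a point -/
theorem int_of_pt (hr : 0 < r) (v : Fin r → Fin N → ℕ) (A : Finset (Fin N)) (Z : Finset (Fin r))
    (a : Fin N → ℚ) (ha : a ∈ Pt v A Z) (j1 : Fin r) (hj1 : ∑ i, a i * (v j1 i : ℚ) = 1) :
    ∃ b : Fin N → ℕ, (∀ i, b i = 0 ↔ a i = 0) ∧ 0 < gord v b ∧
      (∀ j, face v b j ↔ ∑ i, a i * (v j i : ℚ) = 1) := by
  classical
  obtain ⟨s, b, hs, ⟨-, hb⟩, -⟩ := pair_int' v A Z a ha.1 ha.2.1 ha.2.2.2
  have hs' : (0 : ℚ) < s := by exact_mod_cast hs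
  have hb0 : ∀ i, b i = 0 ↔ a i = 0 := by
    intro i
    have h1 := hb i
    constructor
    · intro h2
      rw [h2, Nat.cast_zero] at h1
      exact (mul_eq_zero.1 h1.symm).resolve_right hs'.ne'
    · intro h2
      rw [h2, zero_mul] at h1
      exact_mod_cast h1
  have hbv : ∀ j, ((∑ i, b i * v j i : ℕ) : ℚ) = s * ∑ i, a i * (v j i : ℚ) := by
    intro j
    push_cast
    rw [Finset.mul_sum]
    refine Finset.sum_congr rfl fun i _ => ?_
    rw [hb]
    ring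
  have hge : ∀ j, s ≤ ∑ i, b i * v j i := by
    intro j
    have h1 := hbv j
    have h2 := ha.2.2.1 j
    have h3 : (s : ℚ) ≤ ((∑ i, b i * v j i : ℕ) : ℚ) := by
      rw [h1]
      nlinarith
    exact_mod_cast h3
  have heq : ∀ j, ∑ i, b i * v j i = s ↔ ∑ i, a i * (v j i : ℚ) = 1 := by
    intro j
    have h1 := hbv j
    constructor
    · intro h2
      rw [h2] at h1
      field_simp at h1
      exact h1.symm
    · intro h2
      rw [h2, mul_one] at h1
      exact_mod_cast h1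
  have hgord : gord v b = s := by
    refine le_antisymm ?_ ?_
    · rw [← (heq j1).2 hj1]
      exact gord_le v b j1
    · obtain ⟨j, hj⟩ := exists_gord hr v b
      rw [← hj]
      exact hge j
  refine ⟨b, hb0, by rw [hgord]; exact hs, fun j => ?_⟩
  unfold face
  rw [hgord]
  exact heq j

/-- a point in the relative interior -/
theorem exists_int (hr : 0 < r) (v : Fin r → Fin N → ℕ) (A : Finset (Fin N)) (Z : Finset (Fin r))
    (h : (Pt v A Z).Nonempty) : ∃ a ∈ Pt v A Z, (∀ p ∈ Pt v A Z, ∀ i, a i = 0 → p i = 0) ∧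
      ∀ p ∈ Pt v A Z, ∀ j, ∑ i, a i * (v j i : ℚ) = 1 → ∑ i, p i * (v j i : ℚ) = 1 := by
  classical
  obtain ⟨p0, hp0⟩ := h
  -- the points
  have hP : ∀ i : Fin N, ∃ p ∈ Pt v A Z, (∃ q ∈ Pt v A Z, q i ≠ 0) → p i ≠ 0 := by
    intro i
    by_cases h1 : ∃ q ∈ Pt v A Z, q i ≠ 0
    · obtain ⟨q, hq, hqi⟩ := h1
      exact ⟨q, hq, fun _ => hqi⟩
    · exact ⟨p0, hp0, fun h => absurd h h1⟩
  have hQ : ∀ j : Fin r, ∃ p ∈ Pt v A Z, (∃ q ∈ Pt v A Z, ∑ i, q i * (v j i : ℚ) ≠ 1) →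
      ∑ i, p i * (v j i : ℚ) ≠ 1 := by
    intro j
    by_cases h1 : ∃ q ∈ Pt v A Z, ∑ i, q i * (v j i : ℚ) ≠ 1
    · obtain ⟨q, hq, hqi⟩ := h1
      exact ⟨q, hq, fun _ => hqi⟩
    · exact ⟨p0, hp0, fun h => absurd h h1⟩
  choose P hPm hPn using hP
  choose Q hQm hQn using hQ
  set M : ℚ := (N : ℚ) + r with hM
  have hM0 : 0 < M := by
    have h1 : (0 : ℚ) < r := by exact_mod_cast hr
    have h2 : (0 : ℚ) ≤ N := Nat.cast_nonneg _
    linarith
  set a : Fin N → ℚ := fun i => (∑ x, P x i + ∑ y, Q y i) / M with ha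
  have hsum : ∀ j, ∑ i, a i * (v j i : ℚ) =
      (∑ x, ∑ i, P x i * (v j i : ℚ) + ∑ y, ∑ i, Q y i * (v j i : ℚ)) / M := by
    intro j
    rw [eq_div_iff hM0.ne', Finset.sum_mul]
    have h1 : ∀ i, a i * (v j i : ℚ) * M = ∑ x, P x i * (v j i : ℚ) + ∑ y, Q y i * (v j i : ℚ) := by
      intro i
      rw [ha]
      simp only
      rw [← Finset.sum_mul, ← Finset.sum_mul]
      field_simp
    rw [Finset.sum_congr rfl fun i _ => h1 i, Finset.sum_add_distrib, Finset.sum_comm,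
      Finset.sum_comm (f := fun i y => Q y i * (v j i : ℚ))]
  have hcN : (∑ _x : Fin N, (1 : ℚ)) + ∑ _y : Fin r, (1 : ℚ) = M := by
    simp [hM]
  have hmem : a ∈ Pt v A Z := by
    refine ⟨fun i => ?_, fun i hi => ?_, fun j => ?_, fun j hj => ?_⟩
    · exact div_nonneg (add_nonneg (Finset.sum_nonneg fun x _ => (hPm x).1 i)
        (Finset.sum_nonneg fun y _ => (hQm y).1 i)) hM0.le
    · rw [ha]
      simp only
      rw [Finset.sum_eq_zero fun x _ => (hPm x).2.1 i hi,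
        Finset.sum_eq_zero fun y _ => (hQm y).2.1 i hi, add_zero, zero_div]
    · rw [hsum, le_div_iff₀ hM0, one_mul, ← hcN]
      exact add_le_add (Finset.sum_le_sum fun x _ => (hPm x).2.2.1 j)
        (Finset.sum_le_sum fun y _ => (hQm y).2.2.1 j)
    · rw [hsum, div_eq_iff hM0.ne', one_mul, ← hcN]
      congr 1
      · exact Finset.sum_congr rfl fun x _ => (hPm x).2.2.2 j hj
      · exact Finset.sum_congr rfl fun y _ => (hQm y).2.2.2 j hj
  refine ⟨a, hmem, fun p hp i hai => ?_, fun p hp j haj => ?_⟩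
  · by_contra hne
    have h1 := hPn i ⟨p, hp, hne⟩
    have h2 : 0 < P i i := lt_of_le_of_ne ((hPm i).1 i) (Ne.symm h1)
    have h3 : 0 < a i := by
      refine div_pos (add_pos_of_pos_of_nonneg ?_
        (Finset.sum_nonneg fun y _ => (hQm y).1 i)) hM0
      exact Finset.sum_pos' (fun x _ => (hPm x).1 i) ⟨i, Finset.mem_univ i, h2⟩
    exact h3.ne' hai
  · by_contra hne
    have h1 := hQn j ⟨p, hp, hne⟩
    have h2 : 1 < ∑ i, Q j i * (v j i : ℚ) := lt_of_le_of_ne ((hQm j).2.2.1 j) (Ne.symm h1)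
    rw [hsum, div_eq_iff hM0.ne', one_mul, ← hcN] at haj
    have h3 : ∑ _x : Fin N, (1 : ℚ) ≤ ∑ x, ∑ i, P x i * (v j i : ℚ) :=
      Finset.sum_le_sum fun x _ => (hPm x).2.2.1 j
    have h4 : ∑ _y : Fin r, (1 : ℚ) < ∑ y, ∑ i, Q y i * (v j i : ℚ) :=
      Finset.sum_lt_sum (fun y _ => (hQm y).2.2.1 j) ⟨j, Finset.mem_univ j, h2⟩
    linarith

/-- **The criterion, in terms of cones.** -/
theorem hypSY_of_locC (hr : 0 < r) (v : Fin r → Fin N → ℕ) (Y : Finset (Fin N)) (σ : ℚ)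
    (h : LocC v Y σ) : HypSY v Y (σ : ℝ) := by
  classical
  intro A Z hne hconst hprem
  obtain ⟨a, ha, hsup, htight⟩ := exists_int hr v A Z hne
  -- a vertex outside `Z`
  obtain ⟨i1, hi1⟩ : ∃ i, i ∈ A := by
    by_contra hcon
    push Not at hcon
    have h1 := ha.2.2.1 ⟨0, hr⟩
    have h2 : ∑ i, a i * (v ⟨0, hr⟩ i : ℚ) = 0 := Finset.sum_eq_zero fun i _ => by
      rw [ha.2.1 i (hcon i), zero_mul]
    rw [h2] at h1
    exact absurd h1 (by norm_num)
  obtain ⟨j1, hj1, -⟩ := hprem i1 hi1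
  obtain ⟨b, hb0, hbg, hbf⟩ := int_of_pt hr v A Z a ha j1 (ha.2.2.2 j1 hj1)
  have hbA : ∀ i, b i ≠ 0 → i ∈ A := fun i hi => by
    by_contra h1
    exact hi ((hb0 i).2 (ha.2.1 i h1))
  have hbZ : ∀ j, j ∉ Z → face v b j := fun j hj => (hbf j).2 (ha.2.2.2 j hj)
  -- the level
  have hlev : ∀ a' : Fin N → ℕ, InCone v b a' → 0 < gord v a' ∧
      ((∑ i, a' i : ℕ) : ℚ) / gord v a' = σ := by
    rintro a' ⟨h1, h2, h3⟩
    obtain ⟨i, hi⟩ : ∃ i, a' i ≠ 0 := by
      by_contra hcon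
      push Not at hcon
      exact h1 (funext hcon)
    have hiA : i ∈ A := hbA i fun h => hi (h2 i h)
    obtain ⟨j, hjZ, hji⟩ := hprem i hiA
    have hf : ∑ x, a' x * v j x = gord v a' := h3 j (hbZ j hjZ)
    have hg : 0 < gord v a' := by
      rw [← hf]
      exact Finset.sum_pos' (fun _ _ => Nat.zero_le _) ⟨i, Finset.mem_univ i,
        Nat.mul_pos (Nat.pos_of_ne_zero hi) hji⟩
    refine ⟨hg, ?_⟩
    have hg' : (0 : ℚ) < gord v a' := by exact_mod_cast hg
    have hs : ∀ j, ∑ x, ((a' x : ℚ) / gord v a') * (v j x : ℚ) =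
        ((∑ x, a' x * v j x : ℕ) : ℚ) / gord v a' := by
      intro j
      push_cast
      rw [Finset.sum_div]
      exact Finset.sum_congr rfl fun x _ => by ring
    have hmem : (fun x => (a' x : ℚ) / gord v a') ∈ Pt v A Z := by
      refine ⟨fun x => by positivity, fun x hx => ?_, fun j => ?_, fun j hj => ?_⟩
      · have h4 : a' x = 0 := h2 x (by
          by_contra h5
          exact hx (hbA x h5))
        simp only [h4, Nat.cast_zero, zero_div]
      · rw [hs, le_div_iff₀ hg', one_mul]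
        exact_mod_cast gord_le v a' j
      · have h4 : ∑ x, a' x * v j x = gord v a' := h3 j (hbZ j hj)
        rw [hs, h4, div_self hg'.ne']
    have h4 := hconst _ hmem
    apply Rat.cast_injective (α := ℝ)
    rw [← h4, Nat.cast_sum, Finset.sum_div]
  -- rays of the faces
  have hray : ∀ (A' : Finset (Fin N)) (Z' : Finset (Fin r)), A' ⊆ A → Z' ⊆ Z →
      (Pt v A' Z').Nonempty → ∃ (a : Fin N → ℚ) (b' : Fin N → ℕ), a ∈ Pt v A' Z' ∧
        (∀ i, b' i = 0 ↔ a i = 0) ∧ IsRay v b' ∧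
        (∀ j, face v b' j ↔ ∑ i, a i * (v j i : ℚ) = 1) ∧ InCone v b b' := by
    intro A' Z' hA' hZ' hne'
    obtain ⟨p, b', h1, h2, h3, h4, h5, -⟩ := ray_of_vertex hr v A' Z' hne'
    have hp : p ∈ Pt v A Z := Pt.mono hA' hZ' h1
    exact ⟨p, b', h1, h2, h3, h5, h3.1, fun i hi => (h2 i).2 (hsup p hp i ((hb0 i).1 hi)),
      fun j hj => (h5 j).2 (htight p hp j ((hbf j).1 hj))⟩
  rcases h b hlev with hS | ⟨i, hi⟩ | hi
  · left
    intro w hw1 hw2
    refine hS w (fun j hj => hw2 j ?_) fun i hi => hw1 i (hbA i hi)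
    by_contra h1
    exact hj (hbZ j h1)
  · right; left
    obtain ⟨a1, b1, ha1, hb1, hr1, hf1, hc1⟩ := hray A Z (Finset.Subset.refl _)
      (Finset.Subset.refl _) hne
    obtain ⟨hb1i, j0, hj0f, hj0, hj0u⟩ := hi b1 hr1 hc1
    have hiA : i ∈ A := by
      by_contra hiA
      exact hb1i ((hb1 i).2 (ha1.2.1 i hiA))
    refine ⟨i, hiA, j0, hj0, fun a ha hai => ?_, fun j hj hji a ha haj => ?_⟩
    · obtain ⟨a2, b2, ha2, hb2, hr2, hf2, hc2⟩ := hray (A.erase i) Z (Finset.erase_subset _ _)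
        (Finset.Subset.refl _) ⟨a, ha.1, fun i' hi' => by
          by_cases h1 : i' = i
          · rw [h1]; exact hai
          · exact ha.2.1 i' fun h2 => hi' (Finset.mem_erase.2 ⟨h1, h2⟩), ha.2.2.1, ha.2.2.2⟩
      exact (hi b2 hr2 hc2).1 ((hb2 i).2 (ha2.2.1 i (Finset.notMem_erase i A)))
    · obtain ⟨a2, b2, ha2, hb2, hr2, hf2, hc2⟩ := hray A (Z.erase j) (Finset.Subset.refl _)
        (Finset.erase_subset _ _) ⟨a, ha.1, ha.2.1, ha.2.2.1, fun j' hj' => by
          by_cases h1 : j' = j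
          · rw [h1]; exact haj
          · exact ha.2.2.2 j' fun h2 => hj' (Finset.mem_erase.2 ⟨h1, h2⟩)⟩
      obtain ⟨hb2i, j0', hj0f', hj0', hj0u'⟩ := hi b2 hr2 hc2
      obtain ⟨j2, hj2Z, hj2⟩ := hprem i hiA
      have h3 : j2 = j0 := by
        by_contra h4
        have := hj0u j2 ((hf1 j2).2 (ha1.2.2.2 j2 hj2Z)) h4
        omega
      have h4 : j2 = j0' := by
        by_contra h4
        have := hj0u' j2 ((hf2 j2).2 (ha2.2.2.2 j2 fun h5 =>
          hj2Z (Finset.mem_of_mem_erase h5))) h4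
        omega
      have h5 : j = j0' := by
        by_contra h6
        have := hj0u' j ((hf2 j).2 (ha2.2.2.2 j (Finset.notMem_erase j Z))) h6
        omega
      exact hj (h5.trans (h4.symm.trans h3))
  · right; right
    intro A' Z' hA' hZ' hne'
    obtain ⟨p, b', h1, h2, h3, h4, h5⟩ := hray A' Z' hA' hZ' hne'
    obtain ⟨i, hiY, h6, j0, h7, h8, h9⟩ := hi b' h3 h5
    refine ⟨p, h1, i, hiY, fun h => h6 ((h2 i).2 h), fun j j' hj hj' hji hj'i => ?_⟩
    have e : ∀ j, ∑ x, p x * (v j x : ℚ) = 1 → v j i ≠ 0 → j = j0 := by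
      intro j hj hji
      by_contra hne
      exact hji (h9 j ((h4 j).2 hj) hne)
    rw [e j hj hji, e j' hj' hj'i]

end Pool.Agent.J4.H70.CM2
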