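import Pool.Agent.TH216.ID.Gn2
import Pool.Agent.Y229.MS.Ind

/-!
# The criterion for `f + y z`
-/

set_option autoImplicit false
set_option maxHeartbeats 400000

namespace Pool.Agent.J4.H70.CM2

open MvPolynomial
open Pool.Agent.TH216.MF Pool.Agent.TH216.ID
open Pool.Agent.Y229.MS (exyz)

/-- **The criterion for `f + y z`.** -/
theorem hypSY_yz {R R' N : ℕ} (V : Fin R → Fin N → ℕ) (V' : Fin R' → Fin (N + 2) → ℕ)
    (e : Fin R → Fin R') (s : Fin R') (he : Function.Injective e) (hes : ∀ j, e j ≠ s)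
    (hcov : ∀ j', j' = s ∨ ∃ j, e j = j')
    (hV : ∀ j i, V' (e j) (Fin.castAdd 2 i) = V j i)
    (hV0 : ∀ j i, V' (e j) (Fin.natAdd N i) = 0)
    (hs : ∀ i, V' s (Fin.castAdd 2 i) = 0) (hs1 : ∀ i, V' s (Fin.natAdd N i) = 1)
    (Y : Finset (Fin N)) (Y' : Finset (Fin (N + 2))) (hY : ∀ i ∈ Y, Fin.castAdd 2 i ∈ Y')
    (σ : ℝ) (h : HypSY V Y σ) : HypSY V' Y' (σ + 1) := by
  classical
  -- sums over the coordinates
  have hsumE : ∀ (a : Fin (N + 2) → ℚ) (j : Fin R), ∑ i, a i * (V' (e j) i : ℚ) =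
      ∑ i, a (Fin.castAdd 2 i) * (V j i : ℚ) := by
    intro a j
    rw [Fin.sum_univ_add]
    simp only [hV, hV0, Nat.cast_zero, mul_zero, Finset.sum_const_zero, add_zero]
  have hsumS : ∀ (a : Fin (N + 2) → ℚ), ∑ i, a i * (V' s i : ℚ) = ∑ t : Fin 2, a (Fin.natAdd N t) := by
    intro a
    rw [Fin.sum_univ_add]
    simp only [hs, hs1, Nat.cast_zero, mul_zero, Finset.sum_const_zero, zero_add, Nat.cast_one,
      mul_one]
  -- sums over the exponents
  have hsumR : ∀ F : Fin R' → ℚ, ∑ j', F j' = F s + ∑ j, F (e j) := by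
    intro F
    have h1 : (Finset.univ : Finset (Fin R')) = insert s (Finset.univ.map ⟨e, he⟩) := by
      ext j'
      simp only [Finset.mem_univ, Finset.mem_insert, Finset.mem_map, Function.Embedding.coeFn_mk,
        true_and, true_iff]
      exact hcov j'
    rw [h1, Finset.sum_insert, Finset.sum_map]
    · rfl
    · intro h2
      obtain ⟨j, -, hj⟩ := Finset.mem_map.1 h2
      exact hes j hj
  intro A' Z' hne hconst hprem
  -- the point `y z` is not in `Z'`
  have hsZ : s ∉ Z' := by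
    intro hsZ
    obtain ⟨a, ha0, ha1, ha2, -⟩ := hne
    have h1 := ha2 s
    rw [hsumS] at h1
    have h2 : ∀ t : Fin 2, a (Fin.natAdd N t) = 0 := by
      intro t
      apply ha1
      intro ht
      obtain ⟨j', hj', hpos⟩ := hprem _ ht
      rcases hcov j' with rfl | ⟨j, rfl⟩
      · exact hj' hsZ
      · rw [hV0] at hpos
        exact absurd hpos (lt_irrefl 0)
    rw [Finset.sum_eq_zero fun t _ => h2 t] at h1
    exact absurd h1 (by norm_num)
  set A : Finset (Fin N) := Finset.univ.filter fun i => Fin.castAdd 2 i ∈ A' with hA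
  set Z : Finset (Fin R) := Finset.univ.filter fun j => e j ∈ Z' with hZ
  have memA : ∀ i, i ∈ A ↔ Fin.castAdd 2 i ∈ A' := fun i => by
    rw [hA, Finset.mem_filter]
    exact ⟨fun h => h.2, fun h => ⟨Finset.mem_univ _, h⟩⟩
  have memZ : ∀ j, j ∈ Z ↔ e j ∈ Z' := fun j => by
    rw [hZ, Finset.mem_filter]
    exact ⟨fun h => h.2, fun h => ⟨Finset.mem_univ _, h⟩⟩
  -- restriction of points
  have hres : ∀ (A1 : Finset (Fin (N + 2))) (Z1 : Finset (Fin R')) (a : Fin (N + 2) → ℚ),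
      a ∈ Pt V' A1 Z1 → (fun i => a (Fin.castAdd 2 i)) ∈
        Pt V (Finset.univ.filter fun i => Fin.castAdd 2 i ∈ A1)
          (Finset.univ.filter fun j => e j ∈ Z1) := by
    rintro A1 Z1 a ⟨h0, h1, h2, h3⟩
    refine ⟨fun i => h0 _, fun i hi => h1 _ fun h4 => hi
      (Finset.mem_filter.2 ⟨Finset.mem_univ _, h4⟩), fun j => ?_, fun j hj => ?_⟩
    · rw [← hsumE]
      exact h2 _
    · rw [← hsumE]
      exact h3 _ fun h4 => hj (Finset.mem_filter.2 ⟨Finset.mem_univ _, h4⟩)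
  have hone : ∀ (A1 : Finset (Fin (N + 2))) (Z1 : Finset (Fin R')), Z1 ⊆ Z' →
      ∀ a ∈ Pt V' A1 Z1, ∑ t : Fin 2, a (Fin.natAdd N t) = 1 := by
    rintro A1 Z1 hZ1 a ⟨-, -, -, h3⟩
    rw [← hsumS]
    exact h3 s fun h => hsZ (hZ1 h)
  -- extension of points
  have hext : ∀ (A1 : Finset (Fin (N + 2))) (Z1 : Finset (Fin R')), Z1 ⊆ Z' →
      ∀ p ∈ Pt V' A1 Z1, ∀ a ∈ Pt V (Finset.univ.filter fun i => Fin.castAdd 2 i ∈ A1)
          (Finset.univ.filter fun j => e j ∈ Z1),
        (Fin.append a fun t : Fin 2 => p (Fin.natAdd N t) : Fin (N + 2) → ℚ) ∈ Pt V' A1 Z1 := by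
    rintro A1 Z1 hZ1 p hp a ⟨h0, h1, h2, h3⟩
    have hp1 := hone A1 Z1 hZ1 p hp
    obtain ⟨p0, p1, p2, p3⟩ := hp
    refine ⟨fun i => ?_, fun i => ?_, fun j' => ?_, fun j' hj' => ?_⟩
    · refine Fin.addCases (fun i => ?_) (fun t => ?_) i
      · rw [Fin.append_left]
        exact h0 i
      · rw [Fin.append_right]
        exact p0 _
    · refine Fin.addCases (fun i => ?_) (fun t => ?_) i
      · intro hi
        rw [Fin.append_left]
        exact h1 i fun h4 => hi (Finset.mem_filter.1 h4).2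
      · intro hi
        rw [Fin.append_right]
        exact p1 _ hi
    · rcases hcov j' with rfl | ⟨j, rfl⟩
      · rw [hsumS]
        simp only [Fin.append_right]
        rw [hp1]
      · rw [hsumE]
        simp only [Fin.append_left]
        exact h2 j
    · rcases hcov j' with rfl | ⟨j, rfl⟩
      · rw [hsumS]
        simp only [Fin.append_right]
        rw [hp1]
      · rw [hsumE]
        simp only [Fin.append_left]
        exact h3 j fun h4 => hj' (Finset.mem_filter.1 h4).2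
  obtain ⟨p, hp⟩ := hne
  have hneV : (Pt V A Z).Nonempty := ⟨_, hres A' Z' p hp⟩
  have hconstV : ∀ a ∈ Pt V A Z, ((∑ i, a i : ℚ) : ℝ) = σ := by
    intro a ha
    have h1 := hconst _ (hext A' Z' (Finset.Subset.refl _) p hp a ha)
    rw [Fin.sum_univ_add] at h1
    simp only [Fin.append_left, Fin.append_right] at h1
    rw [hone A' Z' (Finset.Subset.refl _) p hp] at h1
    push_cast at h1 ⊢
    linarith
  have hpremV : ∀ i ∈ A, ∃ j, j ∉ Z ∧ 0 < V j i := by
    intro i hi
    obtain ⟨j', hj', hpos⟩ := hprem _ ((memA i).1 hi)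
    rcases hcov j' with rfl | ⟨j, rfl⟩
    · rw [hs] at hpos
      exact absurd hpos (lt_irrefl 0)
    · rw [hV] at hpos
      exact ⟨j, fun h => hj' ((memZ j).1 h), hpos⟩
  rcases h A Z hneV hconstV hpremV with hF | ⟨i, hiA, j0, hj0, h1, h2⟩ | hap
  · left
    intro w hw1 hw2
    -- a coordinate `t` in `A'`
    obtain ⟨t, ht⟩ : ∃ t : Fin 2, Fin.natAdd N t ∈ A' := by
      by_contra hcon
      push Not at hcon
      have h1 := hone A' Z' (Finset.Subset.refl _) p hp
      rw [Finset.sum_eq_zero fun t _ => hp.2.1 _ (hcon t)] at h1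
      exact absurd h1 (by norm_num)
    have h3 := hw1 _ ht
    rw [hsumR] at h3
    simp only [hs1, hV0, Nat.cast_one, mul_one, Nat.cast_zero, mul_zero, Finset.sum_const_zero,
      add_zero] at h3
    have h4 : ∀ j, w (e j) = 0 := by
      refine hF (fun j => w (e j)) (fun i hi => ?_) fun j hj => hw2 _ ((memZ j).1 hj)
      have h5 := hw1 _ ((memA i).1 hi)
      rw [hsumR] at h5
      simp only [hs, hV, Nat.cast_zero, mul_zero, zero_add] at h5
      exact h5
    intro j'
    rcases hcov j' with rfl | ⟨j, rfl⟩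
    · exact h3
    · exact h4 j
  · right; left
    refine ⟨Fin.castAdd 2 i, (memA i).1 hiA, e j0, by rw [hV, hj0], fun a ha => ?_,
      fun j' hj' hpos a ha => ?_⟩
    · exact h1 _ (hres A' Z' a ha)
    · rcases hcov j' with rfl | ⟨j, rfl⟩
      · rw [hs] at hpos
        exact absurd hpos (lt_irrefl 0)
      · rw [hsumE]
        rw [hV] at hpos
        exact h2 j (fun h => hj' (by rw [h])) hpos _ (hres A' Z' a ha)
  · right; right
    intro A1 Z1 hA1 hZ1 hne1
    obtain ⟨p1, hp1⟩ := hne1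
    obtain ⟨a, ha, i, hiY, hai, hu⟩ := hap (Finset.univ.filter fun i => Fin.castAdd 2 i ∈ A1)
      (Finset.univ.filter fun j => e j ∈ Z1)
      (fun i hi => (memA i).2 (hA1 (Finset.mem_filter.1 hi).2))
      (fun j hj => (memZ j).2 (hZ1 (Finset.mem_filter.1 hj).2)) ⟨_, hres A1 Z1 p1 hp1⟩
    refine ⟨_, hext A1 Z1 hZ1 p1 hp1 a ha, Fin.castAdd 2 i, hY i hiY, ?_, ?_⟩
    · rw [Fin.append_left]
      exact hai
    · intro j j' hj hj' hji hj'i
      rcases hcov j with rfl | ⟨j1, rfl⟩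
      · rw [hs] at hji
        exact absurd rfl hji
      rcases hcov j' with rfl | ⟨j2, rfl⟩
      · rw [hs] at hj'i
        exact absurd rfl hj'i
      rw [hsumE] at hj hj'
      simp only [Fin.append_left] at hj hj'
      rw [hV] at hji hj'i
      rw [hu j1 j2 hj hj' hji hj'i]

end Pool.Agent.J4.H70.CM2
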