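import Pool.Agent.J4.H70.CC.Defs
import Pool.Agent.TH216.HDL

/-!
# Functions on smooth complete intersections, motivic zeta functions: the definitions
-/

set_option autoImplicit false

namespace Pool.Agent.J4.H70.CM2

open MvPolynomial Pool.Agent.W428.MOT
open Pool.Agent.TH216.HD (IsRay ordA OnFace lev NonB1)
open Pool.Agent.TH216.HDL (SimpL B1L)
open Pool.Agent.Y229.PS (IsFormalBFunction)
open Pool.Agent.J4.H70.CC (OnV zetaV)

section
variable {r N : ℕ}

/-- `a'` is in the closed cone of `a`, the cone of the normal fan of the Newton polyhedron of the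
`v j` (subdivided by the coordinate hyperplanes) which contains `a` in its relative interior. -/
def InCone (v : Fin r → Fin N → ℕ) (a a' : Fin N → ℕ) : Prop :=
  a' ≠ 0 ∧ (∀ i, a i = 0 → a' i = 0) ∧ ∀ j, OnFace v a j → OnFace v a' j

/-- For every cone of the normal fan on which `|a| / N_a = σ` is constant: the monomials on its face
are affinely independent, or the facets of its rays are B1 in a common direction, or they are B1
in some directions in `Y`. -/
def LocC (v : Fin r → Fin N → ℕ) (Y : Finset (Fin N)) (σ : ℚ) : Prop :=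
  ∀ a : Fin N → ℕ, (∀ a', InCone v a a' → 0 < ordA v a' ∧ lev v a' = σ) →
    SimpL v a ∨ (∃ i, ∀ a', IsRay v a' → InCone v a a' → B1L v i a') ∨
      ∀ a', IsRay v a' → InCone v a a' → ∃ i ∈ Y, B1L v i a'

/-- a negative integer -/
def NegInt (x : ℚ) : Prop := ∃ m : ℕ, 0 < m ∧ x = -(m : ℚ)

/-- `s(w) = ∑_{a i = 0} w_i` -/
def ht (v : Fin r → Fin N → ℕ) (a : Fin N → ℕ) (j : Fin r) : ℚ :=
  ∑ i, if a i = 0 then (v j i : ℚ) else 0

open Classical in
/-- A circuit on the face of `a`: a lower simplex `D`, a further point `k`, the relation `c` between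
the points in `D` and `k`, the solution `s` of `∑ s_j v_j = -1` on `D`; `G` is a set of `j` with
`c_j < 0` for which `k` is the first point on the other side of the wall opposite to `j`. If `s_j` is a
negative integer, then `c_j ≠ 0`, and there are fewer such `j ∉ G` than `j ∈ G` with `s_j = 0`. -/
def Circuit (v : Fin r → Fin N → ℕ) (a : Fin N → ℕ) : Prop :=
  ∃ (D : Finset (Fin r)) (k : Fin r) (s c : Fin r → ℚ) (G : Finset (Fin r)),
    k ∉ D ∧ D.card = (Finset.univ.filter fun i => a i ≠ 0).card ∧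
    (∀ j ∈ D, OnFace v a j) ∧ OnFace v a k ∧
    (∀ w : Fin r → ℚ, (∀ j, j ∉ D → w j = 0) →
      (∀ i, a i ≠ 0 → ∑ j, w j * (v j i : ℚ) = 0) → ∀ j, w j = 0) ∧
    (∀ l, OnFace v a l → ∀ α : Fin r → ℚ, (∀ j, j ∉ D → α j = 0) →
      (∀ i, a i ≠ 0 → ∑ j, α j * (v j i : ℚ) = (v l i : ℚ)) →
      ∑ j, α j * ht v a j ≤ ht v a l) ∧
    (∀ j, j ∉ D → s j = 0) ∧ (∀ i, a i ≠ 0 → ∑ j, s j * (v j i : ℚ) = -1) ∧
    (∀ j, j ∉ D → j ≠ k → c j = 0) ∧ c k = -1 ∧
    (∀ i, a i ≠ 0 → ∑ j, c j * (v j i : ℚ) = 0) ∧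
    (∀ j, NegInt (s j) → c j ≠ 0) ∧ (∀ j ∈ G, c j < 0) ∧
    (Finset.univ.filter fun j => NegInt (s j) ∧ j ∉ G).card < (G.filter fun j => s j = 0).card ∧
    ∀ l, OnFace v a l → ∀ α : Fin r → ℚ, (∀ j, j ∉ D → α j = 0) →
      (∀ i, a i ≠ 0 → ∑ j, α j * (v j i : ℚ) = (v l i : ℚ)) →
      ∀ j ∈ G, j ≠ k → α j < 0 →
        (-∑ m, c m * ht v a m) * (-α j) ≤ (ht v a l - ∑ m, α m * ht v a m) * (-c j)

/-- `E` is a set of linearly independent exponents on the face of `a` which minimise a linear form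
`w` with `w_i > 0` for `a i = 0`, `s` is supported on `E`, `∑ s_j v_j = -1` in the coordinates `i` with
`a i ≠ 0`, and no `s_j` is a negative integer. -/
def GoodPoint (v : Fin r → Fin N → ℕ) (a : Fin N → ℕ) : Prop :=
  ∃ (E : Finset (Fin r)) (s : Fin r → ℚ) (w : Fin N → ℚ) (μ : ℚ),
    (∀ j ∈ E, OnFace v a j) ∧ (∀ i, a i = 0 → 0 < w i) ∧
    (∀ j ∈ E, ∑ i, w i * (v j i : ℚ) = μ) ∧ (∀ j, OnFace v a j → μ ≤ ∑ i, w i * (v j i : ℚ)) ∧
    (∀ c : Fin r → ℚ, (∀ j, j ∉ E → c j = 0) → (∀ i, ∑ j, c j * (v j i : ℚ) = 0) →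
      ∀ j, c j = 0) ∧
    (∀ j, j ∉ E → s j = 0) ∧ (∀ i, a i ≠ 0 → ∑ j, s j * (v j i : ℚ) = -1) ∧
    ∀ j, ¬ NegInt (s j)

/-- `-σ` is a root of the Bernstein-Sato polynomial of all general polynomials with the Newton
polyhedron of the `v j` because of the face of some `a` with `|a| / N_a = σ`: it contains a simplex
which is not B1, a circuit or a point as above. -/
def RootLev (v : Fin r → Fin N → ℕ) (σ : ℚ) : Prop :=
  ∃ a : Fin N → ℕ, 0 < ordA v a ∧ lev v a = σ ∧ (NonB1 v True a ∨ Circuit v a ∨ GoodPoint v a)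

/-- The candidate pole `κ - σ` of `Φ|_V` is exceptional: it is not `-1`, there is no simplex, circuit or
point as above at the level `σ`, and `LocC v Y σ` does not hold, for any set `Y` of variables in
which all monomials have degree at most one. -/
def Exc (κ : ℕ) (v : Fin r → Fin N → ℕ) (σ : ℚ) : Prop :=
  σ ≠ κ + 1 ∧ ¬ RootLev v σ ∧
    ¬ ∃ Y : Finset (Fin N), (∀ j, ∑ i ∈ Y, v j i ≤ 1) ∧ LocC v Y σ

end

section
variable {r n κ : ℕ}

/-- The exponents of `G = Φ + ∑ y_i l_i` in the variables `x, y, z` (`n + (κ + κ)` variables): the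
`j`-th monomial is the monomial `m j` in `x, z` of `Φ` if `π j = 0`, and `y_i` times the monomial `m j` of
`l_i` if `π j = i`. -/
def expG (π : Fin r → Fin (κ + 1)) (m : Fin r → Fin (n + κ) → ℕ) (j : Fin r) :
    Fin (n + (κ + κ)) → ℕ :=
  Fin.append (fun i => m j (Fin.castAdd κ i)) (Fin.append
    (fun i : Fin κ => if π j = i.succ then 1 else 0) (fun i => m j (Fin.natAdd n i)))

end

/-- The function `Φ` on the germ `V = {l_1 = ⋯ = l_κ = 0} ⊂ 𝔸 ^ (n + κ)` at the origin, with the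
coordinates `x_1, …, x_n` (both over `k`), has the property that the rational numbers
`p.1 / p.2`, `p ∈ S`, are negative and, if `E (κ - p.1 / p.2)` does not hold, roots of all its
Bernstein-Sato polynomials, and that its local motivic zeta function (over any extension `K` of `k`)
is in `M_K[T, 1 / (1 - 𝕃 ^ a T ^ b)]`, `(a, b) ∈ S`. -/
def StrongM {k : Type} [Field k] [Algebra k ℂ] {n κ : ℕ} (E : ℚ → Prop) (S : Finset (ℤ × ℤ))
    (Φ : MvPolynomial (Fin (n + κ)) k) (l : Fin κ → MvPolynomial (Fin (n + κ)) k) : Prop :=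
  (∀ f : MvPowerSeries (Fin n) ℂ, f ≠ 0 → OnV f (MvPolynomial.map (algebraMap k ℂ) Φ)
    (fun i => MvPolynomial.map (algebraMap k ℂ) (l i)) → ∀ p ∈ S, p.1 < 0 ∧
      (E (κ - p.1 / p.2) ∨
        ∀ b : Polynomial ℂ, IsFormalBFunction f b → b.eval ((p.1 : ℂ) / p.2) = 0)) ∧
  ∀ (K : Type) [Field K] [Algebra k K],
    zetaV n (MvPolynomial.map (algebraMap k K) Φ)
      (fun i => MvPolynomial.map (algebraMap k K) (l i)) ∈ ratRing K S

end Pool.Agent.J4.H70.CM2
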