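import Pool.Agent.J4.H70.CM2.Crit
import Pool.Agent.J4.H70.CM2.Cone
import Pool.Agent.J4.H70.CC.Main

/-!
# The criterion for `f + y z`, the directions
-/

set_option autoImplicit false
set_option maxHeartbeats 400000

namespace Pool.Agent.J4.H70.CM2

open MvPolynomial
open Pool.Agent.TH216.MF Pool.Agent.TH216.ID
open Pool.Agent.Y229.MS (exyz)

variable {r N : ℕ}

theorem exyz_succ_l (v : Fin r → Fin N → ℕ) (j : Fin r) (i : Fin N) :
    exyz v j.succ (Fin.castAdd 2 i) = v j i := by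
  simp only [exyz, Fin.cons_succ, Fin.append_left]

theorem exyz_succ_r (v : Fin r → Fin N → ℕ) (j : Fin r) (t : Fin 2) :
    exyz v j.succ (Fin.natAdd N t) = 0 := by
  simp only [exyz, Fin.cons_succ, Fin.append_right]

theorem exyz_zero_l (v : Fin r → Fin N → ℕ) (i : Fin N) :
    exyz v 0 (Fin.castAdd 2 i) = 0 := by
  simp only [exyz, Fin.cons_zero, Fin.append_left]

theorem exyz_zero_r (v : Fin r → Fin N → ℕ) (t : Fin 2) :
    exyz v 0 (Fin.natAdd N t) = 1 := by
  simp only [exyz, Fin.cons_zero, Fin.append_right]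

/-- the condition on the level `σ` -/
def HY (v : Fin r → Fin N → ℕ) (σ : ℚ) : Prop := ∃ Y : Finset (Fin N), YOK v Y ∧ HypSY v Y (σ : ℝ)

theorem yok_of_sum (v : Fin r → Fin N → ℕ) (Y : Finset (Fin N)) (h : ∀ j, ∑ i ∈ Y, v j i ≤ 1) :
    YOK v Y := by
  classical
  constructor
  · intro i hi j
    exact (Finset.single_le_sum (f := fun i => v j i) (fun _ _ => Nat.zero_le _) hi).trans (h j)
  · intro i hi i' hi' j h1 h2
    by_contra hne
    have h3 : v j i + v j i' ≤ ∑ x ∈ Y, v j x := by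
      rw [← Finset.sum_pair hne]
      refine Finset.sum_le_sum_of_subset ?_
      intro x hx
      rcases Finset.mem_insert.1 hx with rfl | hx
      · exact hi
      · rw [Finset.mem_singleton.1 hx]
        exact hi'
    have := h j
    omega

theorem hy_of (hr : 0 < r) (v : Fin r → Fin N → ℕ) (σ : ℚ)
    (h : ∃ Y : Finset (Fin N), (∀ j, ∑ i ∈ Y, v j i ≤ 1) ∧ LocC v Y σ) : HY v σ := by
  obtain ⟨Y, h1, h2⟩ := h
  exact ⟨Y, yok_of_sum v Y h1, hypSY_of_locC hr v Y σ h2⟩

/-- the criterion for `f + y z` -/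
theorem hy_exyz (v : Fin r → Fin N → ℕ) (σ : ℚ) (h : HY v σ) : HY (exyz v) (σ + 1) := by
  obtain ⟨Y, hY, hS⟩ := h
  refine ⟨Y.map (Fin.castAddEmb 2), ⟨?_, ?_⟩, ?_⟩
  · intro i hi j
    obtain ⟨i, hiY, rfl⟩ := Finset.mem_map.1 hi
    rw [Fin.castAddEmb_apply]
    refine Fin.cases ?_ (fun j => ?_) j
    · rw [exyz_zero_l]
      exact Nat.zero_le _
    · rw [exyz_succ_l]
      exact hY.1 i hiY j
  · intro i hi i' hi' j
    obtain ⟨i, hiY, rfl⟩ := Finset.mem_map.1 hi
    obtain ⟨i', hiY', rfl⟩ := Finset.mem_map.1 hi'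
    rw [Fin.castAddEmb_apply, Fin.castAddEmb_apply]
    refine Fin.cases ?_ (fun j => ?_) j
    · rw [exyz_zero_l]
      intro h1
      exact absurd rfl h1
    · rw [exyz_succ_l, exyz_succ_l]
      intro h1 h2
      rw [hY.2 i hiY i' hiY' j h1 h2]
  · have h1 := hypSY_yz v (exyz v) Fin.succ 0 (Fin.succ_injective _) (fun j => Fin.succ_ne_zero j)
      (fun j' => ?_) (fun j i => exyz_succ_l v j i) (fun j t => exyz_succ_r v j t)
      (fun i => exyz_zero_l v i) (fun t => exyz_zero_r v t) Y (Y.map (Fin.castAddEmb 2))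
      (fun i hi => Finset.mem_map.2 ⟨i, hi, rfl⟩) σ hS
    · push_cast
      exact h1
    · refine Fin.cases ?_ (fun j => ?_) j'
      · exact Or.inl rfl
      · exact Or.inr ⟨j, rfl⟩

end Pool.Agent.J4.H70.CM2
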