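import Pool.Agent.J4.H70.CM2.Main

/-!
# Generic functions on smooth complete intersections, motivic zeta functions: the theorem
-/

set_option autoImplicit false
set_option maxHeartbeats 400000

namespace Pool.Agent.J4.H70.CM2

open MvPolynomial Pool.Agent.W428.MOT
open Pool.Agent.Y229.RE (ex xv yv zv emb ex_y y_inj)
open Pool.Agent.W426.SM (gord)
open Pool.Agent.W803.SM (gord_le)
open Pool.Agent.Y229.PS (IsFormalBFunction)
open Pool.Agent.J4.H70.CC

variable {n κ r : ℕ}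

theorem expG_eq (π : Fin r → Fin (κ + 1)) (m : Fin r → Fin (n + κ) → ℕ) : expG π m = ex π m := rfl

/-- **Functions on smooth complete intersections, motivic zeta functions.** -/
theorem cim {F : Type} [Field F] [Algebra F ℂ] {r n κ : ℕ} (hr : 0 < r)
    (π : Fin r → Fin (κ + 1)) (m : Fin r → Fin (n + κ) → ℕ)
    (hinj : ∀ j j', π j = π j' → m j = m j' → j = j') (hm : ∀ j, m j ≠ 0)
    (H : Fin (κ + 1) → MvPolynomial (Fin (n + κ)) F)
    (hH : ∀ i, ∀ w ∈ (H i).support, NPQ π m i w)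
    (hvH : ∀ i, ∀ w ∈ (H i).support, ∀ j, π j = i → ¬ ∀ x, w x = m j x) :
    ∃ (g : MvPolynomial (Fin r) F) (S : Finset (ℤ × ℤ)), g ≠ 0 ∧ (∀ p ∈ S, 0 < p.2) ∧
      ∀ (k : Type) [Field k] [Algebra F k] [Algebra k ℂ] [IsScalarTower F k ℂ] (a : Fin r → k),
        aeval a g ≠ 0 → (jacZ fun i : Fin κ => tupK π m a H i.succ).det ≠ 0 →
        (∀ i : Fin κ, coeff (Finsupp.single (Fin.natAdd n i) 1) (tupK π m a H 0) = 0) →
        StrongM (Exc κ (expG π m)) S (tupK π m a H 0) fun i => tupK π m a H i.succ := by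
  classical
  obtain ⟨g, S, hg, hS, hmain⟩ := stablyM hr (ex π m) (Pool.Agent.Y229.RE.ex_inj π m hinj)
    (Pool.Agent.Y229.RE.ex_ne_zero π m hm) (hGK H) (np_hGK π m H hH) (vh_hGK π m H hvH)
  refine ⟨g, S, hg, fun p hp => (hS p hp).1, fun k _ _ _ _ a ha hdet hΦ => ?_⟩
  obtain ⟨h1, h2⟩ := hmain k a ha (tupK π m a H 0) (fun i => tupK π m a H i.succ)
    (fun i => tupK_zero π m hm a H hH i.succ) hdet (tupK_zero π m hm a H hH 0) hΦ
    (spa_tupK π m a H).symm
  refine ⟨fun f hf0 hf p hp => ⟨?_, ?_⟩, h2⟩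
  swap
  · rw [expG_eq]
    exact h1 f hf0 hf p hp
  obtain ⟨q, hq⟩ := hf
  have hpos : ∀ (u : Fin (n + (κ + κ)) → ℕ) (L : ℕ), 0 < L →
      (∀ j, L ≤ ∑ i, u i * ex π m j i) → κ * L < ∑ i, u i := by
    intro u L hL hu
    refine ray_posV (fun i => ?_) (jacZ_map (algebraMap k ℂ) hdet) hf0 hq u L hL (fun w hw => ?_)
      fun i w hw => ?_
    · rw [constantCoeff_map, tupK_zero π m hm a H hH i.succ, map_zero]
    · have h3 : coeff w (tupK π m a H 0) ≠ 0 := by
        intro h0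
        apply hw
        rw [coeff_map, h0, map_zero]
      have h4 := ord_tupK π m a H hH u L hu 0 w h3
      rwa [YY_zero, add_zero] at h4
    · have h3 : coeff w (tupK π m a H i.succ) ≠ 0 := by
        intro h0
        apply hw
        rw [coeff_map, h0, map_zero]
      have h4 := ord_tupK π m a H hH u L hu i.succ w h3
      rwa [YY_succ] at h4
  rcases (hS p hp).2 with rfl | ⟨u, hu, hg, rfl⟩
  · norm_num
  · have h3 := hpos u (gord (ex π m) u) hg fun j => gord_le _ _ j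
    show -((∑ i, u i : ℕ) : ℤ) + κ * (gord (ex π m) u : ℤ) < 0
    have h4 : ((κ * gord (ex π m) u : ℕ) : ℤ) < ((∑ i, u i : ℕ) : ℤ) := by exact_mod_cast h3
    push_cast at h4 ⊢
    linarith

end Pool.Agent.J4.H70.CM2
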