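import Pool.Agent.J4.H70.CM2.Ray
import Pool.Agent.J4.H70.CC.Gen
import Pool.Agent.TH216.LX.Lx3
import Pool.Agent.Y231.N4.R1
import Pool.Agent.Y231.N4.R2

/-!
# Generic coefficients: the motivic zeta function at the origin
-/

set_option autoImplicit false
set_option maxHeartbeats 400000

namespace Pool.Agent.J4.H70.CM2

open MvPolynomial Pool.Agent.H628R4.TP Pool.Agent.W425.MM Pool.Agent.W425.GN
open Pool.Agent.W425.ND (spa)
open Pool.Agent.W426.SM (gord IsRay face)
open Pool.Agent.W803.SM (gord_le exists_gord)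
open Pool.Agent.W425.SV (NP RelV Kil1)
open Pool.Agent.TH216.MF Pool.Agent.TH216.ID
open Pool.Agent.TH216.LX (InN inN_self inN_mono inN_np np_inN aJ_phiN relIX)
open Pool.Agent.W428.MOT
open Pool.Agent.W375.MG (zetaG Good good_one)
open Pool.Agent.Y228.HX (W00 mem_W00 zeta_zetaG InNP app_inj)
open Pool.Agent.J4.H70.CC (fst)
open Pool.Agent.Y231.N4 (CircP PntP)

variable {r N : ℕ}

/-- the recurrences at the bad levels -/
theorem hb_H (hr : 0 < r) {F : Type} [Field F] (v : Fin r → Fin N → ℕ)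
    (hv : Function.Injective v) (h : MvPolynomial (Fin N) F)
    (hh : ∀ w ∈ h.support, NP v w)
    (hvh : ∀ w ∈ h.support, ∀ j, ¬ ∀ x, w x = v j x) (P : ℚ → Prop)
    (hP : ∀ α, ¬ P α → ∃ (θ : Fin r → ℤ) (p : Polynomial ℂ),
      RelG v (Kil1 v) (KilU v θ) p ∧ p.eval (α : ℂ) ≠ 0)
    (J : Finset (Fin N)) (hJ : Finset.univ ⊆ J) (q : ℕ) (hq : 2 ≤ q)
    (e : Finset (Fin (r + h.support.card)) → ℂ)
    (he : KRelJ q (Fin.append v (we h)) J e) (T0 : ℂ) (hT0 : T0 ≠ 0) (σ : ℚ)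
    (hσ : HY v σ ∧ ¬ P (-σ)) (hlog : Real.log ‖T0‖ / Real.log q = (σ : ℝ)) :
    RecJ q (Fin.append v (we h)) e J T0 := by
  classical
  have hminj : Function.Injective (Fin.append v (we h)) := app_inj v hv h hvh
  have hma : ∀ j', ∃ j, Fin.append v (we h) j = v j' := fun j' =>
    ⟨Fin.castAdd _ j', by rw [Fin.append_left]⟩
  have hmb : ∀ j, InN v J (Fin.append v (we h) j) := by
    intro j
    refine Fin.addCases (fun j => ?_) (fun l => ?_) j
    · rw [Fin.append_left]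
      exact inN_self v J j
    · rw [Fin.append_right]
      exact inN_mono hJ (np_inN (hh _ (h.support.equivFin.symm l).2))
  obtain ⟨⟨Y, hY, hL⟩, hPσ⟩ := hσ
  obtain ⟨θ, p, hrel, hp⟩ := hP _ hPσ
  have he' := krelJ_phi (Fin.append v (we h)) v hminj hma q J e he
  have h1 : ((-Real.log ‖T0‖ / Real.log q : ℝ) : ℂ) = ((-σ : ℚ) : ℂ) := by
    rw [neg_div, hlog]
    push_cast
    rfl
  obtain ⟨Q, hQ, hrec⟩ := recJ_genY q hq v Y hY p θ hrel J _ he' T0 hT0
    (by rw [h1]; exact hp) (by rw [hlog]; exact hL)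
  refine ⟨Q, hQ, ?_⟩
  filter_upwards [hrec] with t ht
  rw [← ht]
  refine Finset.sum_congr rfl fun m _ => ?_
  rw [aJ_phiN (Fin.append v (we h)) v J (by omega) hr hma hmb]

/-- the local zeta function at the origin, from the one for jets -/
theorem fst_zeta_mem {K : Type} [Field K] {n : ℕ} (f : MvPolynomial (Fin n) K) (S : Set (ℤ × ℤ))
    (h : zetaG f (W00 K n) {1} * (1 - PowerSeries.C (((Lu K)⁻¹ : (MK K)ˣ) : MK K) *
      PowerSeries.X) ∈ ratRing K S) : fst K * zeta f 0 ∈ ratRing K S := by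
  have hf : fst K ∈ ratRing K S := by
    unfold fst
    exact (ratRing K S).sub_mem (ratRing K S).one_mem ((ratRing K S).mul_mem
      (Pool.Agent.W63.MTFin.C_mem _ _) (Pool.Agent.W63.MTFin.X_mem _))
  rw [zeta_zetaG, mul_sub, mul_comm (fst K) (zetaG f (W00 K n) {1})]
  exact (ratRing K S).sub_mem h ((ratRing K S).mul_mem hf (Pool.Agent.W63.MTFin.C_mem _ _))

/-- **Generic coefficients, the motivic zeta function at the origin with the factor
`1 - 𝕃⁻¹ T`.** -/
theorem genH {F : Type} [Field F] [Algebra F ℂ] (hr : 0 < r)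
    (v : Fin r → Fin N → ℕ) (hv : Function.Injective v) (hv0 : ∀ j, v j ≠ 0)
    (h : MvPolynomial (Fin N) F) (hh : ∀ w ∈ h.support, NP v w)
    (hvh : ∀ w ∈ h.support, ∀ j, ¬ ∀ x, w x = v j x) :
    ∃ (g : MvPolynomial (Fin r) F) (S : Finset (ℤ × ℤ)), g ≠ 0 ∧
      (∀ p ∈ S, ∃ a : Fin N → ℕ, IsRay v a ∧ 0 < gord v a ∧
        (HY v (((∑ i, a i : ℕ) : ℚ) / gord v a) → PI v h (-(((∑ i, a i : ℕ) : ℚ) / gord v a))) ∧
        p = (-((∑ i, a i : ℕ) : ℤ), (gord v a : ℤ))) ∧
      ∀ (k : Type) [Field k] [Algebra F k] [Algebra k ℂ] [IsScalarTower F k ℂ] (c : Fin r → k),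
        aeval c g ≠ 0 →
        (∀ b : Polynomial ℂ, IsLocalBFunction
          (spa v (fun j => algebraMap k ℂ (c j)) + MvPolynomial.map (algebraMap F ℂ) h)
            ((Polynomial.X + 1) * b) → ∀ α : ℚ, PI v h α → b.eval (α : ℂ) = 0) ∧
        ∀ (K : Type) [Field K] [Algebra k K],
          fst K * zeta (spa v (fun j => algebraMap k K (c j)) +
            MvPolynomial.map ((algebraMap k K).comp (algebraMap F k)) h) 0 ∈ ratRing K S := by
  classical
  have hne : NeZero r := ⟨by omega⟩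
  obtain ⟨g1, hg1, h1⟩ := rootsI (F := F) hr v hv h
  obtain ⟨g2, hg2, h2⟩ := gen_nonDF pF4 hr v (we h) (we_np v h hh) (wc h)
  obtain ⟨g3, hg3, h3⟩ := gen_ne (F := F) hr v hv h
  have hg4 : (∏ j : Fin r, (X j : MvPolynomial (Fin r) F)) ≠ 0 :=
    Finset.prod_ne_zero_iff.2 fun j _ => X_ne_zero j
  have hray := pRAY v (we h) hr (we_np v h hh)
  obtain ⟨S, hS, hz1⟩ := fin_W (Fin.append v (we h)) (by omega)
    (fun σ => HY v σ ∧ ¬ PI v h (-σ)) Finset.univ
    (fun J hJ q hq e he T0 hT0 σ hσ hlog => hb_H hr v hv h hh hvh (PI v h)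
      (fun α hα => relIX v hv hv0 h hh α hα) J hJ q hq e he T0 hT0 σ hσ hlog)
  refine ⟨g1 * g2 * g3 * ∏ j : Fin r, (X j : MvPolynomial (Fin r) F), S,
    mul_ne_zero (mul_ne_zero (mul_ne_zero hg1 hg2) hg3) hg4, fun p hp => ?_,
    fun k _ _ _ _ c hc0 => ?_⟩
  · obtain ⟨a, ha, hg, hn, rfl⟩ := hS p hp
    obtain ⟨hga, hra⟩ := hray a
    rw [hga] at hg hn ⊢
    refine ⟨a, hra ha, hg, fun h4 => ?_, rfl⟩
    by_contra h5
    exact hn ⟨h4, h5⟩
  have hc : aeval (fun j => algebraMap k ℂ (c j))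
      (g1 * g2 * g3 * ∏ j : Fin r, (X j : MvPolynomial (Fin r) F)) ≠ 0 := by
    intro h0
    apply hc0
    have h3 : algebraMap k ℂ (aeval c
        (g1 * g2 * g3 * ∏ j : Fin r, (X j : MvPolynomial (Fin r) F))) = 0 := by
      rw [← h0, ← aeval_algebraMap_apply]
      rfl
    exact (map_eq_zero _).1 h3
  rw [map_mul, map_mul, map_mul, map_prod] at hc
  have hcne : ∀ j, c j ≠ 0 := by
    intro j hj
    have h5 := Finset.prod_ne_zero_iff.1 (right_ne_zero_of_mul hc) j (Finset.mem_univ j)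
    rw [aeval_X, hj, map_zero] at h5
    exact h5 rfl
  have hc123 := left_ne_zero_of_mul hc
  have hb := h1 _ (left_ne_zero_of_mul (left_ne_zero_of_mul hc123))
  have hnd := h2 _ (right_ne_zero_of_mul (left_ne_zero_of_mul hc123))
  have hfne := h3 _ (right_ne_zero_of_mul hc123)
  refine ⟨fun b hb' α hα => ?_, fun K _ _ => ?_⟩
  · have hL : FEqL (spa v (fun j => algebraMap k ℂ (c j)) +
        MvPolynomial.map (algebraMap F ℂ) h) ((Polynomial.X + 1) * b) := by
      obtain ⟨_, d, P, hd, hP⟩ := Pool.Agent.W368.SL.taskL1 _ _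
        hfne (Pool.Agent.W425.SV.f_const hv0 _ h hh)
        (Pool.Agent.W425.SL.toSL hb')
      refine (feqL_iff _ _).1 ((Pool.Agent.W591.GC.J_iff _ _ _).2
        ⟨d, Pool.Agent.W591.GC.mem_S1.2 hd, P, fun s => ?_⟩)
      rw [← hP s]
      ring
    exact hb b hL α hα
  have hkc : CharZero k := RingHom.charZero (algebraMap k ℂ)
  have hK : CharZero K := charZero_of_injective_algebraMap (algebraMap k K).injective
  have hnk : NonD (Fin.append v (we h)) (fun j => algebraMap k ℂ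
      (Fin.append c (fun l => algebraMap F k (wc h l)) j)) := by
    rw [append_map]
    simp only [← IsScalarTower.algebraMap_apply F k ℂ]
    exact hnd
  refine fst_zeta_mem _ _ ?_
  rw [sp_eq]
  refine hz1 K _ (nonG_of_nonD _ _ ?_) (fun j => ?_) _ _
    (Pool.Agent.W425.MM.constr_pt (0 : Fin N → K)) good_one
    (fun z hz i _ => (mem_W00 N z).1 hz i)
  · have h4 := nonD_ext (k := k) (L := AlgebraicClosure K) _ _ hnk
    have h5 : (fun j => algebraMap K (AlgebraicClosure K)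
        (Fin.append (fun j => algebraMap k K (c j))
          (fun l => (algebraMap k K).comp (algebraMap F k) (wc h l)) j)) =
        fun j => algebraMap k (AlgebraicClosure K)
          (Fin.append c (fun l => algebraMap F k (wc h l)) j) := by
      rw [append_map, append_map]
      congr 1
    rw [h5]
    exact h4
  · refine Fin.addCases (fun j => ?_) (fun l => ?_) j
    · rw [Fin.append_left]
      exact (map_ne_zero _).2 (hcne j)
    · rw [Fin.append_right]
      exact (map_ne_zero _).2 (mem_support_iff.1 (h.support.equivFin.symm l).2)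

/-- a root of all relations is a root of the universal functional equation -/
theorem pi_of_root [NeZero r] {F : Type} [Field F] (v : Fin r → Fin N → ℕ)
    (hv : Function.Injective v) (hv0 : ∀ j, v j ≠ 0) (h : MvPolynomial (Fin N) F)
    (hh : ∀ w ∈ h.support, NP v w) (u : Fin N → ℕ)
    (hu : ∃ θ : Fin r → ℝ, LinearIndependent ℚ θ ∧
      ∀ p : Polynomial ℂ, RelV v θ True p → p.eval (-(((∑ i, u i : ℕ) : ℂ) / gord v u)) = 0) :
    PI v h (-(((∑ i, u i : ℕ) : ℚ) / gord v u)) := by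
  intro F' _ _ a h' ha hs b hb
  have hh' : ∀ w ∈ h'.support, NP v w := fun w hw => hh w (hs w hw)
  by_cases hb0 : b = 0
  · rw [hb0]
    exact dvd_zero _
  have hJ := (feqL_iff _ b).2 hb
  obtain ⟨θ, hθ, hR⟩ := hu
  obtain ⟨p, q, hbp, hp⟩ := Pool.Agent.W422.GC.rel_of_unit True _ unit_cond v a hv hv0 ha h' hh'
    θ hθ b hb0 hJ
  have h1 := hR p hp
  set α : ℚ := -(((∑ i, u i : ℕ) : ℚ) / gord v u) with hα
  have hαC : (α : ℂ) = -(((∑ i, u i : ℕ) : ℂ) / gord v u) := by
    rw [hα]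
    push_cast
    ring
  have h2 : (Polynomial.X - Polynomial.C (α : ℂ)) ∣ p := by
    rw [Polynomial.dvd_iff_isRoot]
    show p.eval (α : ℂ) = 0
    rw [hαC]
    exact h1
  have h3 : (Polynomial.X - Polynomial.C (α : ℂ)) ^ ((if α = -1 then 1 else 0) + 1) ∣
      (Polynomial.X + 1) * p := by
    split_ifs with h4
    · rw [h4] at h2 ⊢
      have e : ((-1 : ℚ) : ℂ) = -1 := by push_cast; rfl
      rw [e, ← xp1_eq] at h2 ⊢
      rw [pow_two]
      exact mul_dvd_mul_left _ h2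
    · rw [zero_add, pow_one]
      exact h2.mul_left _
  rw [hbp]
  exact h3.mul_right _

/-- **The roots.** -/
theorem pi_rootLev [NeZero r] {F : Type} [Field F] (v : Fin r → Fin N → ℕ)
    (hv : Function.Injective v) (hv0 : ∀ j, v j ≠ 0) (h : MvPolynomial (Fin N) F)
    (hh : ∀ w ∈ h.support, NP v w) (σ : ℚ) (hσ : RootLev v σ) : PI v h (-σ) := by
  obtain ⟨u, hg, hl, h1⟩ := hσ
  rw [← hl]
  change 0 < gord v u at hg
  show PI v h (-(((∑ i, u i : ℕ) : ℚ) / gord v u))
  rcases h1 with h1 | h1 | h1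
  · exact pi_nonB v hv hv0 h hh u hg h1
  · exact pi_of_root v hv hv0 h hh u (Pool.Agent.Y231.N4.stR1 v u hg h1)
  · exact pi_of_root v hv hv0 h hh u (Pool.Agent.Y231.N4.stR2 v u hg h1)

end Pool.Agent.J4.H70.CM2
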