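import Pool.Agent.J4.H70.CM2.Gen
import Pool.Agent.J4.H70.CC.CIFin

/-!
# Generic functions on smooth complete intersections: motivic zeta functions
-/

set_option autoImplicit false
set_option maxHeartbeats 400000

namespace Pool.Agent.J4.H70.CM2

open MvPolynomial Pool.Agent.W428.MOT
open Pool.Agent.Y229.MS (exyz map_spa)
open Pool.Agent.Y229.RE (ex xv yv zv emb)
open Pool.Agent.H628R4.TP (IsLocalBFunction)
open Pool.Agent.W425.ND (spa)
open Pool.Agent.W426.SM (gord IsRay face)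
open Pool.Agent.W803.SM (gord_le)
open Pool.Agent.TH216.MF (ratR)
open Pool.Agent.TH216.ID (PI)
open Pool.Agent.Y228.HX (InNP)
open Pool.Agent.Y229.PS (IsFormalBFunction)
open Pool.Agent.J4.H70.CC

section
variable {n κ : ℕ}

/-- the candidate of the ray `a` is a root -/
def Rt {F : Type} [Field F] {r N : ℕ} (κ : ℕ) (v : Fin r → Fin N → ℕ)
    (h : MvPolynomial (Fin N) F) (a : Fin N → ℕ) : Prop :=
  ∑ i, a i = (κ + 1) * gord v a ∨ PI v h (-(((∑ i, a i : ℕ) : ℚ) / gord v a)) ∨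
    PI (exyz v) (rename (Fin.castAdd 2) h) (-(((∑ i, a i : ℕ) : ℚ) / gord v a) - 1)

/-- **The theorem for stably generic functions.** -/
theorem stablyM {F : Type} [Field F] [Algebra F ℂ] {r : ℕ} (hr : 0 < r)
    (v : Fin r → Fin (n + (κ + κ)) → ℕ) (hv : Function.Injective v) (hv0 : ∀ j, v j ≠ 0)
    (h : MvPolynomial (Fin (n + (κ + κ))) F) (hh : ∀ w ∈ h.support, InNP v fun i => w i)
    (hvh : ∀ w ∈ h.support, ∀ j, ¬ ∀ x, w x = v j x) :
    ∃ (g : MvPolynomial (Fin r) F) (S : Finset (ℤ × ℤ)), g ≠ 0 ∧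
      (∀ p ∈ S, 0 < p.2 ∧ (p = (-1, 1) ∨ ∃ a : Fin (n + (κ + κ)) → ℕ, IsRay v a ∧
          0 < gord v a ∧ p = (-((∑ i, a i : ℕ) : ℤ) + κ * (gord v a : ℤ), (gord v a : ℤ)))) ∧
      ∀ (k : Type) [Field k] [Algebra F k] [Algebra k ℂ] [IsScalarTower F k ℂ] (c : Fin r → k),
        aeval c g ≠ 0 → ∀ (Φ : MvPolynomial (Fin (n + κ)) k)
          (l : Fin κ → MvPolynomial (Fin (n + κ)) k), (∀ i, constantCoeff (l i) = 0) →
          (jacZ l).det ≠ 0 → constantCoeff Φ = 0 →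
          (∀ i : Fin κ, coeff (Finsupp.single (Fin.natAdd n i) 1) Φ = 0) →
          GG Φ l = spa v c + MvPolynomial.map (algebraMap F k) h →
        (∀ f : MvPowerSeries (Fin n) ℂ, f ≠ 0 → OnV f (MvPolynomial.map (algebraMap k ℂ) Φ)
          (fun i => MvPolynomial.map (algebraMap k ℂ) (l i)) → ∀ p ∈ S,
          Exc κ v (κ - p.1 / p.2) ∨ ∀ b : Polynomial ℂ,
          IsFormalBFunction f b → b.eval ((p.1 : ℂ) / p.2) = 0) ∧
        ∀ (K : Type) [Field K] [Algebra k K],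
          zetaV n (MvPolynomial.map (algebraMap k K) Φ)
            (fun i => MvPolynomial.map (algebraMap k K) (l i)) ∈ ratRing K S := by
  classical
  have hne : NeZero r := ⟨by omega⟩
  have hhN : ∀ w ∈ h.support, Pool.Agent.W425.SV.NP v w := fun w hw => (hh w hw).np
  have hhN2 : ∀ w ∈ (rename (Fin.castAdd 2) h).support, Pool.Agent.W425.SV.NP (exyz v) w :=
    fun w hw => (np_ren v h hh w hw).np
  obtain ⟨g1, S1, hg1, hS1, H1⟩ := genH hr v hv hv0 h hhN hvh
  obtain ⟨g2', S2, hg2', hS2, H2⟩ := genH (Nat.succ_pos r) (exyz v) (exyz_inj hv) (exyz_ne hv0)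
    (rename (Fin.castAdd 2) h) hhN2 (vh_ren v h hvh)
  obtain ⟨g2, hg2, H2'⟩ := exists_first g2' hg2'
  -- the roots
  have hR1 : ∀ a, IsRay v a → 0 < gord v a →
      (HY v (((∑ i, a i : ℕ) : ℚ) / gord v a) → Rt κ v h a) → Exc κ v (((∑ i, a i : ℕ) : ℚ) / gord v a) ∨ Rt κ v h a := by
    intro a ha hg hi
    by_cases h0 : (((∑ i, a i : ℕ) : ℚ) / gord v a) = κ + 1
    · right; left
      have e1 : ((gord v a : ℕ) : ℚ) ≠ 0 := by exact_mod_cast hg.ne'
      rw [div_eq_iff e1] at h0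
      exact_mod_cast h0
    by_cases h1 : RootLev v (((∑ i, a i : ℕ) : ℚ) / gord v a)
    · exact Or.inr (Or.inr (Or.inl (pi_rootLev v hv hv0 h hhN _ h1)))
    by_cases h2 : ∃ Y : Finset (Fin (n + (κ + κ))), (∀ j, ∑ i ∈ Y, v j i ≤ 1) ∧
        LocC v Y (((∑ i, a i : ℕ) : ℚ) / gord v a)
    · exact Or.inr (hi (hy_of hr v _ h2))
    · exact Or.inl ⟨h0, h1, h2⟩
  have hS1' : ∀ p ∈ S1, ∃ a : Fin (n + (κ + κ)) → ℕ, IsRay v a ∧ 0 < gord v a ∧
      (Exc κ v (((∑ i, a i : ℕ) : ℚ) / gord v a) ∨ Rt κ v h a) ∧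
      (p.1 + κ * p.2, p.2) =
        (-((∑ i, a i : ℕ) : ℤ) + κ * (gord v a : ℤ), (gord v a : ℤ)) := by
    intro p hp
    obtain ⟨a, ha, hg, hi, rfl⟩ := hS1 p hp
    exact ⟨a, ha, hg, hR1 a ha hg fun h1 => Or.inr (Or.inl (hi h1)), rfl⟩
  have hS2' : ∀ p ∈ S2, ∃ a : Fin (n + (κ + κ)) → ℕ, IsRay v a ∧ 0 < gord v a ∧
      (Exc κ v (((∑ i, a i : ℕ) : ℚ) / gord v a) ∨ Rt κ v h a) ∧
      (p.1 + ((κ + 1 : ℕ) : ℤ) * p.2, p.2) =
        (-((∑ i, a i : ℕ) : ℤ) + κ * (gord v a : ℤ), (gord v a : ℤ)) := by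
    intro p hp
    obtain ⟨a', ha', hg', hi, rfl⟩ := hS2 p hp
    obtain ⟨hra, hga, hsa⟩ := ray_exyz hr v a' ha' hg'
    set a : Fin (n + (κ + κ)) → ℕ := fun i => a' (Fin.castAdd 2 i) with hadef
    have hg : 0 < gord v a := by rw [hga]; exact hg'
    have hgq : ((gord v a : ℕ) : ℚ) ≠ 0 := by exact_mod_cast hg.ne'
    have hlev : ((∑ i, a' i : ℕ) : ℚ) / gord (exyz v) a' =
        ((∑ i, a i : ℕ) : ℚ) / gord v a + 1 := by
      rw [hsa, ← hga]
      push_cast
      field_simp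
    refine ⟨a, hra, hg, hR1 a hra hg fun h1 => Or.inr (Or.inr ?_), ?_⟩
    · have h2 := hy_exyz v _ h1
      have h3 := hi (by
        rw [hlev]
        exact h2)
      rw [hlev] at h3
      rwa [neg_add, ← sub_eq_add_neg] at h3
    · rw [hsa, ← hga]
      refine Prod.ext ?_ rfl
      simp only
      push_cast
      ring
  set S : Finset (ℤ × ℤ) := insert (-1, 1) (S1.image (fun q => (q.1 + κ * q.2, q.2)) ∪
    S2.image (fun q => (q.1 + ((κ + 1 : ℕ) : ℤ) * q.2, q.2))) with hS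
  have hpos1 : ∀ p ∈ (S1 : Set (ℤ × ℤ)), 0 < p.2 := by
    intro p hp
    obtain ⟨a, -, hg, -, rfl⟩ := hS1 p (Finset.mem_coe.1 hp)
    exact Int.natCast_pos.2 hg
  have hpos2 : ∀ p ∈ (S2 : Set (ℤ × ℤ)), 0 < p.2 := by
    intro p hp
    obtain ⟨a, -, hg, -, rfl⟩ := hS2 p (Finset.mem_coe.1 hp)
    exact Int.natCast_pos.2 hg
  have hSr : ∀ p ∈ S, p = (-1, 1) ∨ ∃ a : Fin (n + (κ + κ)) → ℕ, IsRay v a ∧ 0 < gord v a ∧
      (Exc κ v (((∑ i, a i : ℕ) : ℚ) / gord v a) ∨ Rt κ v h a) ∧ p = (-((∑ i, a i : ℕ) : ℤ) + κ * (gord v a : ℤ), (gord v a : ℤ)) := by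
    intro p hp
    rcases Finset.mem_insert.1 hp with rfl | hp
    · exact Or.inl rfl
    · right
      rcases Finset.mem_union.1 hp with hp | hp
      · obtain ⟨q, hq, rfl⟩ := Finset.mem_image.1 hp
        exact hS1' q hq
      · obtain ⟨q, hq, rfl⟩ := Finset.mem_image.1 hp
        exact hS2' q hq
  refine ⟨g1 * g2, S, mul_ne_zero hg1 hg2, fun p hp => ?_,
    fun k _ _ _ _ c hc Φ l hl hdet hΦ0 hΦ hG => ?_⟩
  · rcases hSr p hp with rfl | ⟨a, ha, hg, -, rfl⟩
    · exact ⟨by norm_num, Or.inl rfl⟩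
    · exact ⟨Int.natCast_pos.2 hg, Or.inr ⟨a, ha, hg, rfl⟩⟩
  have hkc : CharZero k := RingHom.charZero (algebraMap k ℂ)
  rw [map_mul] at hc
  obtain ⟨H3, H4⟩ := H1 k c (left_ne_zero_of_mul hc)
  obtain ⟨c0, hc0, hc1⟩ := H2' k c (right_ne_zero_of_mul hc)
  obtain ⟨H5, H6⟩ := H2 k _ hc1
  -- the polynomials over an extension
  have hcons : ∀ {L : Type} [Field L] (g : k →+* L), (fun j => g ((Fin.cons c0 c :
      Fin (r + 1) → k) j)) = (Fin.cons (g c0) (fun j => g (c j)) : Fin (r + 1) → L) := by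
    intro L _ g
    funext j
    refine Fin.cases ?_ (fun j => ?_) j
    · rfl
    · rfl
  have hsh : ∀ {L : Type} [Field L] (g : k →+* L) (g' : F →+* L),
      spa (exyz v) (fun j => g ((Fin.cons c0 c : Fin (r + 1) → k) j)) +
        MvPolynomial.map g' (rename (Fin.castAdd 2) h) =
      rename (Fin.castAdd 2) (spa v (fun j => g (c j)) + MvPolynomial.map g' h) +
        C (g c0) * (X (Fin.natAdd _ 0) * X (Fin.natAdd _ 1)) := by
    intro L _ g g'
    rw [hcons, spa_cons, map_add, map_rename]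
    ring
  have hGL : ∀ (L : Type) [Field L] [Algebra k L],
      spa v (fun j => algebraMap k L (c j)) +
          MvPolynomial.map ((algebraMap k L).comp (algebraMap F k)) h =
      GG (MvPolynomial.map (algebraMap k L) Φ)
        (fun i => MvPolynomial.map (algebraMap k L) (l i)) := by
    intro L _ _
    rw [GG_map, hG, map_add, map_spa, MvPolynomial.map_map]
  have hGL2 : ∀ (L : Type) [Field L] [Algebra k L],
      spa (exyz v) (fun j => algebraMap k L ((Fin.cons c0 c : Fin (r + 1) → k) j)) +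
          MvPolynomial.map ((algebraMap k L).comp (algebraMap F k)) (rename (Fin.castAdd 2) h) =
      rename (Fin.castAdd 2) (GG (MvPolynomial.map (algebraMap k L) Φ)
        (fun i => MvPolynomial.map (algebraMap k L) (l i))) + C (algebraMap k L c0) *
        (X (Fin.natAdd _ 0) * X (Fin.natAdd _ 1)) := by
    intro L _ _
    rw [hsh, hGL]
  have hlL : ∀ (L : Type) [Field L] [Algebra k L],
      ∀ i, constantCoeff (MvPolynomial.map (algebraMap k L) (l i)) = 0 := by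
    intro L _ _ i
    rw [constantCoeff_map, hl, map_zero]
  have hΦL : ∀ (L : Type) [Field L] [Algebra k L],
      constantCoeff (MvPolynomial.map (algebraMap k L) Φ) = 0 ∧ ∀ i : Fin κ,
        coeff (Finsupp.single (Fin.natAdd n i) 1) (MvPolynomial.map (algebraMap k L) Φ) = 0 := by
    intro L _ _
    refine ⟨?_, fun i => ?_⟩
    · rw [constantCoeff_map, hΦ0, map_zero]
    · rw [coeff_map, hΦ, map_zero]
  have hFC : (algebraMap k ℂ).comp (algebraMap F k) = algebraMap F ℂ :=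
    (IsScalarTower.algebraMap_eq F k ℂ).symm
  refine ⟨fun f hf0 hf p hp => ?_, fun K _ _ => ?_⟩
  · by_cases hE : Exc κ v (κ - p.1 / p.2)
    · exact Or.inl hE
    refine Or.inr fun b hb => ?_
    obtain ⟨hb1, hb2⟩ := bfun (hlL ℂ) (jacZ_map (algebraMap k ℂ) hdet) (hΦL ℂ).1 (hΦL ℂ).2 hf0 hf
      (algebraMap k ℂ c0) ((map_ne_zero _).2 hc0) hb
    obtain ⟨c', rfl⟩ := Pool.Agent.Y229.PS.exists_factor hb1
    obtain ⟨hb3, hb4⟩ := hb2 c' rfl
    have e1 := hGL ℂ
    have e2 := hGL2 ℂ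
    rw [hFC] at e1 e2
    rw [← e1] at hb3
    rw [← e2] at hb4
    rcases hSr p hp with rfl | ⟨a, ha, hg, hR, rfl⟩
    · have h6 : (((-1 : ℤ) : ℂ) / ((1 : ℤ) : ℂ)) = -1 := by norm_num
      simp only [h6]
      exact hb1
    · have hgC : ((gord v a : ℕ) : ℂ) ≠ 0 := by exact_mod_cast hg.ne'
      have hgQ : ((gord v a : ℕ) : ℚ) ≠ 0 := by exact_mod_cast hg.ne'
      simp only
      rcases hR with hR | hR | hR | hR
      · exfalso
        apply hE
        have e : ((κ : ℚ) - ((-((∑ i, a i : ℕ) : ℤ) + κ * (gord v a : ℤ) : ℤ) : ℚ) /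
            ((gord v a : ℤ) : ℚ)) = ((∑ i, a i : ℕ) : ℚ) / gord v a := by
          push_cast
          field_simp
          ring
        simp only
        rw [e]
        exact hR
      · have h6 : (((-((∑ i, a i : ℕ) : ℤ) + κ * (gord v a : ℤ) : ℤ) : ℂ) /
            ((gord v a : ℤ) : ℂ)) = -1 := by
          rw [hR]
          push_cast
          field_simp
          ring
        rw [h6]
        exact hb1
      · have h6 := H3 _ hb3 _ hR
        rw [Polynomial.eval_comp] at h6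
        have h8 : (((-((∑ i, a i : ℕ) : ℤ) + κ * (gord v a : ℤ) : ℤ) : ℂ) /
            ((gord v a : ℤ) : ℂ)) = Polynomial.eval
              (((-(((∑ i, a i : ℕ) : ℚ) / gord v a) : ℚ) : ℂ))
              (Polynomial.X + Polynomial.C (κ : ℂ)) := by
          rw [Polynomial.eval_add, Polynomial.eval_X, Polynomial.eval_C]
          push_cast
          field_simp
        rw [Polynomial.eval_mul, h8, h6, mul_zero]
      · have h6 := H5 _ hb4 _ hR
        rw [Polynomial.eval_comp] at h6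
        have h8 : (((-((∑ i, a i : ℕ) : ℤ) + κ * (gord v a : ℤ) : ℤ) : ℂ) /
            ((gord v a : ℤ) : ℂ)) = Polynomial.eval
              (((-(((∑ i, a i : ℕ) : ℚ) / gord v a) - 1 : ℚ) : ℂ))
              (Polynomial.X + Polynomial.C ((κ + 1 : ℕ) : ℂ)) := by
          rw [Polynomial.eval_add, Polynomial.eval_X, Polynomial.eval_C]
          push_cast
          field_simp
          ring
        rw [Polynomial.eval_mul, h8, h6, mul_zero]
  · have hK : CharZero K := charZero_of_injective_algebraMap (algebraMap k K).injective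
    have hid : ∀ Z : PowerSeries (MK K), PowerSeries.map (RingHom.id (MK K)) Z = Z := by
      intro Z
      ext N
      rw [PowerSeries.coeff_map, RingHom.id_apply]
    have hu : Units.map ((RingHom.id (MK K) : MK K →+* MK K) : MK K →* MK K) (Lu K) = Lu K :=
      Units.ext rfl
    have z1 := H4 K
    have z2 := H6 K
    rw [hGL K] at z1
    rw [hGL2 K] at z2
    have z0 := memV (hlL K) (jacZ_map (algebraMap k K) hdet) (hΦL K).1 (hΦL K).2
      (algebraMap k K c0) ((map_ne_zero _).2 hc0)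
    have z3 := elD_mem (RingHom.id (MK K)) κ _ _ (S1 : Set (ℤ × ℤ)) (S2 : Set (ℤ × ℤ))
      hpos1 hpos2 (by rw [hid, hu]; exact z1) (by rw [hid, hu]; exact z2)
    rw [← z0] at z3
    have z4 := of_fst (RingHom.id (MK K)) _ _ z3
    rw [hu, hid] at z4
    have z5 := ratR_mono (Lu K) (T := (S : Set (ℤ × ℤ))) ?_ z4
    · exact z5
    rintro p (rfl | ⟨q, hq, rfl⟩ | ⟨q, hq, rfl⟩)
    · exact Finset.mem_coe.2 (Finset.mem_insert_self _ _)
    · exact Finset.mem_coe.2 (Finset.mem_insert_of_mem (Finset.mem_union_left _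
        (Finset.mem_image_of_mem (fun q : ℤ × ℤ => (q.1 + (κ : ℤ) * q.2, q.2)) hq)))
    · exact Finset.mem_coe.2 (Finset.mem_insert_of_mem (Finset.mem_union_right _
        (Finset.mem_image_of_mem (fun q : ℤ × ℤ => (q.1 + ((κ + 1 : ℕ) : ℤ) * q.2, q.2)) hq)))

end

end Pool.Agent.J4.H70.CM2
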