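import Pool.Agent.J4.H70.CM2.Exyz

/-!
# The rays of the normal fan of `f + y z`
-/

set_option autoImplicit false
set_option maxHeartbeats 400000

namespace Pool.Agent.J4.H70.CM2

open Pool.Agent.Y229.MS (exyz)
open Pool.Agent.W426.SM (gord IsRay face)
open Pool.Agent.W803.SM (gord_le exists_gord)

variable {r N : ℕ}

/-- **The rays of `f + y z`.** -/
theorem ray_exyz (hr : 0 < r) (v : Fin r → Fin N → ℕ) (a : Fin (N + 2) → ℕ)
    (ha : IsRay (exyz v) a) (hg : 0 < gord (exyz v) a) :
    IsRay v (fun i => a (Fin.castAdd 2 i)) ∧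
      gord v (fun i => a (Fin.castAdd 2 i)) = gord (exyz v) a ∧
      ∑ i, a i = ∑ i, a (Fin.castAdd 2 i) + gord (exyz v) a := by
  classical
  set L := gord (exyz v) a with hL
  have hS : ∑ i, a i * exyz v 0 i = ∑ t : Fin 2, a (Fin.natAdd N t) := by
    rw [Fin.sum_univ_add]
    simp only [exyz_zero_l, exyz_zero_r, mul_zero, Finset.sum_const_zero, zero_add, mul_one]
  have hE : ∀ j : Fin r, ∑ i, a i * exyz v j.succ i = ∑ i, a (Fin.castAdd 2 i) * v j i := by
    intro j
    rw [Fin.sum_univ_add]
    simp only [exyz_succ_l, exyz_succ_r, mul_zero, Finset.sum_const_zero, add_zero]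
  have qS : ∀ u : Fin (N + 2) → ℚ, ∑ i, u i * (exyz v 0 i : ℚ) = ∑ t : Fin 2, u (Fin.natAdd N t) := by
    intro u
    rw [Fin.sum_univ_add]
    simp only [exyz_zero_l, exyz_zero_r, Nat.cast_zero, mul_zero, Finset.sum_const_zero, zero_add,
      Nat.cast_one, mul_one]
  have qE : ∀ (u : Fin (N + 2) → ℚ) (j : Fin r), ∑ i, u i * (exyz v j.succ i : ℚ) =
      ∑ i, u (Fin.castAdd 2 i) * (v j i : ℚ) := by
    intro u j
    rw [Fin.sum_univ_add]
    simp only [exyz_succ_l, exyz_succ_r, Nat.cast_zero, mul_zero, Finset.sum_const_zero, add_zero]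
  have hlS : L ≤ ∑ t : Fin 2, a (Fin.natAdd N t) := by
    rw [← hS]
    exact gord_le _ _ 0
  have hlE : ∀ j, L ≤ ∑ i, a (Fin.castAdd 2 i) * v j i := by
    intro j
    rw [← hE]
    exact gord_le _ _ _
  obtain ⟨ha0, hau⟩ := ha
  have hNe : ∀ (t : Fin 2) (i : Fin N), (Fin.castAdd 2 i : Fin (N + 2)) ≠ Fin.natAdd N t := by
    intro t i h
    have h2 := congrArg Fin.val h
    simp only [Fin.val_natAdd, Fin.val_castAdd] at h2
    have := i.isLt
    omega
  have hNi : ∀ {t t' : Fin 2}, (Fin.natAdd N t : Fin (N + 2)) = Fin.natAdd N t' → t = t' :=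
    fun h => Fin.natAdd_injective _ _ h
  -- some original coordinate
  obtain ⟨i0, hi0⟩ : ∃ i, a (Fin.castAdd 2 i) ≠ 0 := by
    by_contra hcon
    push Not at hcon
    have h1 := hlE ⟨0, hr⟩
    rw [Finset.sum_eq_zero fun i _ => by rw [hcon i, zero_mul]] at h1
    omega
  -- some new coordinate
  obtain ⟨t0, ht0⟩ : ∃ t : Fin 2, a (Fin.natAdd N t) ≠ 0 := by
    by_contra hcon
    push Not at hcon
    rw [Finset.sum_eq_zero fun t _ => hcon t] at hlS
    omega
  -- `y z` is on the face
  have hface0 : ∑ t : Fin 2, a (Fin.natAdd N t) = L := by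
    by_contra hcon
    obtain ⟨ρ, hρ⟩ := hau (Pi.single (Fin.natAdd N t0) 1) (fun i hi => by
      rw [Pi.single_eq_of_ne]
      rintro rfl
      exact ht0 hi) (by
      have key : ∀ j, face (exyz v) a j → ∑ i, (Pi.single (Fin.natAdd N t0) (1 : ℚ) :
          Fin (N + 2) → ℚ) i * (exyz v j i : ℚ) = 0 := by
        intro j
        refine Fin.cases (fun hf => ?_) (fun j _ => ?_) j
        · exfalso
          apply hcon
          unfold face at hf
          rw [hS] at hf
          exact hf
        · rw [qE]
          refine Finset.sum_eq_zero fun i _ => ?_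
          rw [Pi.single_eq_of_ne (hNe t0 i), zero_mul]
      intro j j' hj hj'
      rw [key j hj, key j' hj'])
    have h1 := hρ (Fin.natAdd N t0)
    have h2 := hρ (Fin.castAdd 2 i0)
    rw [Pi.single_eq_same] at h1
    rw [Pi.single_eq_of_ne (hNe t0 i0)] at h2
    have h3 : ρ ≠ 0 := by
      rintro rfl
      rw [zero_mul] at h1
      exact one_ne_zero h1
    have h4 : (a (Fin.castAdd 2 i0) : ℚ) = 0 := by
      rcases mul_eq_zero.1 h2.symm with h5 | h5
      · exact absurd h5 h3
      · exact h5
    exact hi0 (by exact_mod_cast h4)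
  -- only one new coordinate
  have hone : ∀ t, t ≠ t0 → a (Fin.natAdd N t) = 0 := by
    intro t ht
    by_contra hat
    set u : Fin (N + 2) → ℚ := Pi.single (Fin.natAdd N t0) 1 - Pi.single (Fin.natAdd N t) 1
      with hu
    have hu0 : ∀ i, u (Fin.castAdd 2 i) = 0 := by
      intro i
      rw [hu, Pi.sub_apply, Pi.single_eq_of_ne (hNe t0 i), Pi.single_eq_of_ne (hNe t i), sub_zero]
    obtain ⟨ρ, hρ⟩ := hau u (fun i hi => by
      rw [hu, Pi.sub_apply, Pi.single_eq_of_ne, Pi.single_eq_of_ne, sub_zero]
      · rintro rfl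
        exact hat hi
      · rintro rfl
        exact ht0 hi) (by
      have key : ∀ j, ∑ i, u i * (exyz v j i : ℚ) = 0 := by
        intro j
        refine Fin.cases ?_ (fun j => ?_) j
        · rw [qS, hu]
          simp only [Pi.sub_apply, Finset.sum_sub_distrib]
          rw [Finset.sum_eq_single t0, Finset.sum_eq_single t, Pi.single_eq_same,
            Pi.single_eq_same, sub_self]
          · intro t' _ h
            rw [Pi.single_eq_of_ne fun h2 => h (hNi h2)]
          · intro h
            exact absurd (Finset.mem_univ _) h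
          · intro t' _ h
            rw [Pi.single_eq_of_ne fun h2 => h (hNi h2)]
          · intro h
            exact absurd (Finset.mem_univ _) h
        · rw [qE]
          refine Finset.sum_eq_zero fun i _ => ?_
          rw [hu0, zero_mul]
      intro j j' _ _
      rw [key j, key j'])
    have h1 := hρ (Fin.natAdd N t0)
    have h2 := hρ (Fin.natAdd N t)
    have e1 : u (Fin.natAdd N t0) = 1 := by
      rw [hu, Pi.sub_apply, Pi.single_eq_same, Pi.single_eq_of_ne fun h => ht (hNi h).symm,
        sub_zero]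
    have e2 : u (Fin.natAdd N t) = -1 := by
      rw [hu, Pi.sub_apply, Pi.single_eq_same, Pi.single_eq_of_ne fun h => ht (hNi h), zero_sub]
    rw [e1] at h1
    rw [e2] at h2
    have p1 : (0 : ℚ) < (a (Fin.natAdd N t0) : ℚ) := by exact_mod_cast Nat.pos_of_ne_zero ht0
    have p2 : (0 : ℚ) < (a (Fin.natAdd N t) : ℚ) := by exact_mod_cast Nat.pos_of_ne_zero hat
    have h3 : 0 < ρ := by
      by_contra h
      push Not at h
      nlinarith
    nlinarith
  have ht0L : a (Fin.natAdd N t0) = L := by
    rw [← hface0, Finset.sum_eq_single t0]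
    · intro t _ ht
      exact hone t ht
    · intro h
      exact absurd (Finset.mem_univ _) h
  -- another exponent on the face
  obtain ⟨j1, hj1⟩ : ∃ j, ∑ i, a (Fin.castAdd 2 i) * v j i = L := by
    by_contra hcon
    push Not at hcon
    obtain ⟨ρ, hρ⟩ := hau (Pi.single (Fin.castAdd 2 i0) 1) (fun i hi => by
      rw [Pi.single_eq_of_ne]
      rintro rfl
      exact hi0 hi) (by
      have key : ∀ j, face (exyz v) a j → ∑ i, (Pi.single (Fin.castAdd 2 i0) (1 : ℚ) :
          Fin (N + 2) → ℚ) i * (exyz v j i : ℚ) = 0 := by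
        intro j
        refine Fin.cases (fun _ => ?_) (fun j hf => ?_) j
        · rw [qS]
          refine Finset.sum_eq_zero fun t _ => ?_
          rw [Pi.single_eq_of_ne (hNe t i0).symm]
        · exfalso
          apply hcon j
          unfold face at hf
          rw [hE] at hf
          exact hf
      intro j j' hj hj'
      rw [key j hj, key j' hj'])
    have h1 := hρ (Fin.castAdd 2 i0)
    have h2 := hρ (Fin.natAdd N t0)
    rw [Pi.single_eq_same] at h1
    rw [Pi.single_eq_of_ne (hNe t0 i0).symm] at h2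
    have h3 : ρ ≠ 0 := by
      rintro rfl
      rw [zero_mul] at h1
      exact one_ne_zero h1
    have h4 : (a (Fin.natAdd N t0) : ℚ) = 0 := by
      rcases mul_eq_zero.1 h2.symm with h5 | h5
      · exact absurd h5 h3
      · exact h5
    exact ht0 (by exact_mod_cast h4)
  have hne : NeZero r := ⟨by omega⟩
  have hgv : gord v (fun i => a (Fin.castAdd 2 i)) = L := by
    obtain ⟨j, hj⟩ := exists_gord (by omega : 0 < r) v (fun i => a (Fin.castAdd 2 i))
    refine le_antisymm ?_ ?_
    · have h1 := gord_le v (fun i => a (Fin.castAdd 2 i)) j1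
      rw [hj1] at h1
      exact h1
    · rw [← hj]
      exact hlE j
  refine ⟨⟨fun h => hi0 (congrFun h i0), fun u hu0 huf => ?_⟩, hgv, ?_⟩
  · set c : ℚ := ∑ i, u i * (v j1 i : ℚ) with hc
    have hj1f : face v (fun i => a (Fin.castAdd 2 i)) j1 := by
      unfold face
      rw [hgv]
      exact hj1
    set u' : Fin (N + 2) → ℚ := Fin.append u (Pi.single t0 c) with hu'
    obtain ⟨ρ, hρ⟩ := hau u' (fun i => by
      refine Fin.addCases (fun i hi => ?_) (fun t hi => ?_) i
      · rw [hu', Fin.append_left]
        exact hu0 i hi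
      · rw [hu', Fin.append_right, Pi.single_eq_of_ne]
        rintro rfl
        exact ht0 hi) (by
      have key : ∀ j, face (exyz v) a j → ∑ i, u' i * (exyz v j i : ℚ) = c := by
        intro j
        refine Fin.cases (fun _ => ?_) (fun j hf => ?_) j
        · rw [qS, hu']
          simp only [Fin.append_right]
          rw [Finset.sum_eq_single t0]
          · rw [Pi.single_eq_same]
          · intro t _ ht
            rw [Pi.single_eq_of_ne ht]
          · intro h
            exact absurd (Finset.mem_univ _) h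
        · rw [qE, hu', hc]
          simp only [Fin.append_left]
          refine huf j j1 ?_ hj1f
          unfold face at hf ⊢
          rw [hE] at hf
          rw [hgv]
          exact hf
      intro j j' hj hj'
      rw [key j hj, key j' hj'])
    refine ⟨ρ, fun i => ?_⟩
    have h1 := hρ (Fin.castAdd 2 i)
    rw [hu', Fin.append_left] at h1
    exact h1
  · rw [Fin.sum_univ_add, hface0]

end Pool.Agent.J4.H70.CM2
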